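import Pool.Agent.PSS.StmtsS1d

noncomputable section

namespace Pool.Agent.PSS.H75

open Finset
open Dm (cst)

section

variable {k W A : Type} [CommRing k] [Group W] [Ring A] [Algebra k A] {om : W →* A} (D : Dm k om)

theorem sq_add (x y : D.R) : D.sq (x + y) = D.sq x + D.sq y := by
  conv_lhs => rw [← D.of_sq x, ← D.of_sq y, ← D.of_add, D.sq_of]

theorem sq_mul (x y : D.R) : D.sq (x * y) = D.mul (D.sq x) (D.sq y) := by
  conv_lhs => rw [← D.of_sq x, ← D.of_sq y, ← D.of_mul, D.sq_of]

theorem sq_one : D.sq 1 = cst 1 := by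
  rw [← D.of_one, D.sq_of]

theorem sq_zero : D.sq 0 = 0 := by
  rw [← D.of_zero, D.sq_of]

theorem sq_smul (c : PowerSeries k) (x : D.R) : D.sq (c • x) = Dm.smulq c (D.sq x) := by
  conv_lhs => rw [← D.of_sq x, ← D.of_smul, D.sq_of]

theorem mul_zero' (f g : ℕ → A) : D.mul f g 0 = f 0 * g 0 := by
  have ha : antidiagonal 0 = {((0 : ℕ), 0)} := rfl
  rw [Dm.mul, ha, sum_singleton]
  simp only
  rw [ha, sum_singleton]
  exact D.m0 _ _

theorem smulq_zero (c : PowerSeries k) (f : ℕ → A) :
    Dm.smulq c f 0 = PowerSeries.coeff 0 c • f 0 := by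
  have ha : antidiagonal 0 = {((0 : ℕ), 0)} := rfl
  rw [Dm.smulq, ha, sum_singleton]

theorem smulq_X (g : ℕ → A) (n : ℕ) :
    Dm.smulq (PowerSeries.X : PowerSeries k) g (n + 1) = g n := by
  rw [Dm.smulq, sum_eq_single (1, n)]
  · rw [PowerSeries.coeff_one_X, one_smul]
  · rintro ⟨i, j⟩ h hne
    rw [Finset.HasAntidiagonal.mem_antidiagonal] at h
    simp only at h ⊢
    rw [PowerSeries.coeff_X, if_neg, zero_smul]
    rintro rfl
    apply hne
    have : j = n := by omega
    rw [this]
  · intro h
    exact absurd (by rw [Finset.HasAntidiagonal.mem_antidiagonal]; simp; omega) h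

theorem smulq_X_zero (g : ℕ → A) :
    Dm.smulq (PowerSeries.X : PowerSeries k) g 0 = 0 := by
  rw [smulq_zero, PowerSeries.coeff_zero_X, zero_smul]

end

theorem spf : SpfStmt := by
  intro k W A _ _ _ _ om D
  refine ⟨{ toFun := fun x => D.sq x 0
            map_one' := by
              show D.sq 1 0 = 1
              rw [sq_one]; rfl
            map_mul' := fun x y => by
              show D.sq (x * y) 0 = D.sq x 0 * D.sq y 0
              rw [sq_mul, mul_zero']
            map_zero' := by
              show D.sq 0 0 = 0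
              rw [sq_zero]; rfl
            map_add' := fun x y => by
              show D.sq (x + y) 0 = D.sq x 0 + D.sq y 0
              rw [sq_add]; rfl }, ?_, ?_, ?_, ?_, ?_⟩
  · intro f
    show D.sq (D.of f) 0 = f 0
    rw [D.sq_of]
  · intro r
    show D.sq (algebraMap (PowerSeries k) D.R r) 0 = _
    rw [Algebra.algebraMap_eq_smul_one, sq_smul, smulq_zero, sq_one,
      Algebra.algebraMap_eq_smul_one, PowerSeries.coeff_zero_eq_constantCoeff]
    rfl
  · intro a
    refine ⟨D.of (cst a), ?_⟩
    show D.sq (D.of (cst a)) 0 = a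
    rw [D.sq_of]; rfl
  · intro w
    show D.sq (D.w w) 0 = om w
    have : D.w w = D.of (cst (om w)) := rfl
    rw [this, D.sq_of]; rfl
  · intro x hx
    have hx' : D.sq x 0 = 0 := hx
    refine ⟨D.of (fun n => D.sq x (n + 1)), ?_⟩
    rw [← D.of_smul]
    conv_lhs => rw [← D.of_sq x]
    congr 1
    funext n
    rcases n with _ | n
    · rw [smulq_X_zero, hx']
    · rw [smulq_X]

theorem rmp : RmpStmt := by
  intro k k₀ W A A₀ _ _ _ _ _ _ _ om om₀ D D₀ q κ hκ hw hm
  have hqs : ∀ (r : k) (a : A), q (r • a) = κ r • q a := by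
    intro r a
    rw [Algebra.smul_def, map_mul, hκ, ← Algebra.smul_def]
  have hmul : ∀ f g : ℕ → A, (fun n => q (D.mul f g n)) =
      D₀.mul (fun n => q (f n)) (fun n => q (g n)) := by
    intro f g
    funext n
    rw [Dm.mul, Dm.mul, map_sum]
    refine sum_congr rfl fun p _ => ?_
    rw [map_sum]
    refine sum_congr rfl fun r _ => ?_
    exact hm _ _ _
  have hcst : ∀ a : A, (fun n => q (cst a n)) = cst (q a) := by
    intro a
    funext n
    simp only [cst]
    split_ifs
    · rfl
    · exact map_zero q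
  have hψ : ∀ f, D₀.of (fun n => q (D.sq (D.of f) n)) = D₀.of (fun n => q (f n)) := by
    intro f
    rw [D.sq_of]
  let ψ : D.R →+* D₀.R :=
    { toFun := fun x => D₀.of (fun n => q (D.sq x n))
      map_one' := by
        show D₀.of (fun n => q (D.sq 1 n)) = 1
        rw [sq_one, hcst, map_one, D₀.of_one]
      map_mul' := fun x y => by
        show D₀.of (fun n => q (D.sq (x * y) n)) =
          D₀.of (fun n => q (D.sq x n)) * D₀.of (fun n => q (D.sq y n))
        rw [sq_mul, hmul, D₀.of_mul]
      map_zero' := by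
        show D₀.of (fun n => q (D.sq 0 n)) = 0
        rw [sq_zero, ← D₀.of_zero]
        congr 1
        funext n
        exact map_zero q
      map_add' := fun x y => by
        show D₀.of (fun n => q (D.sq (x + y) n)) =
          D₀.of (fun n => q (D.sq x n)) + D₀.of (fun n => q (D.sq y n))
        rw [sq_add, ← D₀.of_add]
        congr 1
        funext n
        exact map_add q _ _ }
  have hψof : ∀ f, ψ (D.of f) = D₀.of (fun n => q (f n)) := hψ
  refine ⟨ψ, hψof, ?_, ?_, ?_, ?_⟩
  · intro r a
    show D₀.of (fun n => q (D.sq (r • a) n)) = _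
    rw [sq_smul]
    have : (fun n => q (Dm.smulq r (D.sq a) n)) =
        Dm.smulq (PowerSeries.map κ r) (fun n => q (D.sq a n)) := by
      funext n
      rw [Dm.smulq, Dm.smulq, map_sum]
      refine sum_congr rfl fun p _ => ?_
      rw [hqs, PowerSeries.coeff_map]
    rw [this, D₀.of_smul]
    rfl
  · intro w
    have e : D.w w = D.of (cst (om w)) := rfl
    rw [e, hψof, hcst, hw]
    rfl
  · intro hs y
    choose s hs' using hs
    refine ⟨D.of (fun n => s (D₀.sq y n)), ?_⟩
    rw [hψof]
    have : (fun n => q (s (D₀.sq y n))) = D₀.sq y := by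
      funext n
      exact hs' _
    rw [this, D₀.of_sq]
  · intro p hp x hx
    have hx' : (fun n => q (D.sq x n)) = 0 := by
      have h1 : D₀.of (fun n => q (D.sq x n)) = D₀.of 0 := by
        rw [D₀.of_zero]; exact hx
      have h2 := congrArg D₀.sq h1
      rwa [D₀.sq_of, D₀.sq_of] at h2
    have hx2 : ∀ n, ∃ a', D.sq x n = p • a' := fun n => hp _ (congrFun hx' n)
    choose g hg using hx2
    refine ⟨D.of g, ?_⟩
    rw [← D.of_smul]
    conv_lhs => rw [← D.of_sq x]
    congr 1
    funext n
    rw [hg n, Dm.smulq, sum_eq_single (0, n)]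
    · rw [PowerSeries.coeff_zero_C]
    · rintro ⟨i, j⟩ h hne
      rw [Finset.HasAntidiagonal.mem_antidiagonal] at h
      simp only at h ⊢
      rw [PowerSeries.coeff_C, if_neg, zero_smul]
      rintro rfl
      apply hne
      have : j = n := by omega
      rw [this]
    · intro h
      exact absurd (by rw [Finset.HasAntidiagonal.mem_antidiagonal]; simp) h

end Pool.Agent.PSS.H75
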