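import Pool.Agent.PSS.StmtsS2b

noncomputable section

namespace Pool.Agent.PSS.S2.H75

open scoped BigOperators
open Pool.Agent.PFD.D2 (Cdv FibG)
open Pool.Agent.PFD.D2b (FrR)

theorem q_smul {R F A A' : Type} [CommRing R] [Field F] {c : Cdv R F} [Ring A] [Algebra F A]
    [Ring A'] [Algebra R A'] (f : FibG A' A c) (r : R) (a : A') :
    f.q (r • a) = c.κ r • f.q a := by
  rw [Algebra.smul_def, map_mul, f.sc, ← Algebra.smul_def]

theorem rdg : RdgStmt := by
  intro R F V A A' K Ω _ _ c _ _ _ _ _ _ _ _ _ α lam x y b cc f α' lam' x' y' b' cc' z H L a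
  have hN : ∀ a, f.q (Nh H b' cc' a) = Nh (fun ω => c.κ (H ω)) b cc (f.q a) := by
    intro a
    rw [nh_apply, nh_apply, map_sum]
    refine Finset.sum_congr rfl fun ω _ => ?_
    rw [q_smul, map_mul, L.qb, L.qc]
  rw [gz_apply, gz_apply, map_sum]
  refine Finset.sum_congr rfl fun k _ => ?_
  rw [map_mul f.q, map_sub f.q, map_mul f.q, map_mul f.q, map_sub f.q, map_one f.q, hN, hN,
    map_mul f.q, L.qx, L.qy, L.qa]

theorem nondeg {R V A K : Type} [CommRing R] [CommGroup V] [Fintype V] [Ring A] [Algebra R A]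
    [Fintype K] {α : V →* A} {lam : A →ₗ[R] R} {x y : K → A} (h : RF R α lam x y) {a : A}
    (ha : ∀ b, lam (a * b) = 0) : a = 0 := by
  rw [← h.e2 a]
  refine Finset.sum_eq_zero fun k _ => Finset.sum_eq_zero fun v _ => ?_
  rw [ha, zero_smul]

theorem drt (hVDR : VdrStmt) (hRDG : RdgStmt) (hCNH : CnhStmt) (hUNT : UntStmt) : DrtStmt := by
  intro ℓ _ R F V E A A' K Ω _ _ _ _ c _ _ _ _ _ _ _ _ _ _ _ φ W z α lam x y b cc f α' lam' x'
    y' b' cc' u hV hz hz1 hRF hPr hu hblk L
  have hPr' : PrD R φ α' b' cc' := ⟨L.fr, hPr.st⟩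
  -- complement
  have hcompl : IsCompl (Subgroup.zpowers z) W := by
    constructor
    · rw [Subgroup.disjoint_def]
      intro v hv hw
      rw [← mem_powers_iff_mem_zpowers] at hv
      obtain ⟨j, hj⟩ := hv
      simp only at hj
      rw [← hj] at hw ⊢
      exact hz.dis j hw
    · rw [codisjoint_iff, eq_top_iff]
      intro v _
      obtain ⟨j, w, hw, rfl⟩ := hz.gen v
      exact Subgroup.mul_mem_sup (Subgroup.npow_mem_zpowers z j) hw
  obtain ⟨H₀, v, hvW, hvd, hvl, ⟨χ₀, hχa, hχz, hχH⟩, hvG⟩ :=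
    hVDR R V E A' K Ω φ α' z W lam' x' y' b' cc' L.rf hPr' hz.stb hcompl
  refine ⟨v, hvW, hvd, ?_⟩
  intro d hd w
  -- n = 0 in F
  have hn1 : 1 < orderOf z := by
    rcases Nat.lt_trichotomy (orderOf z) 1 with h | h | h
    · have := orderOf_pos z
      omega
    · exact absurd (orderOf_eq_one_iff.mp h) hz1
    · exact h
  have hℓn : ℓ ∣ orderOf z := by
    obtain ⟨k, hk⟩ := hV z
    obtain ⟨j, -, hj⟩ := (Nat.dvd_prime_pow Fact.out).mp (orderOf_dvd_of_pow_eq_one hk)
    rcases j with _ | j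
    · rw [pow_zero] at hj
      omega
    · rw [hj, pow_succ]
      exact dvd_mul_left _ _
  have hnF : (orderOf z : F) = 0 := (CharP.cast_eq_zero_iff F ℓ _).mpr hℓn
  have hκn : c.κ (orderOf z : R) = 0 := by rw [map_natCast, hnF]
  have hcg : ∀ p p' : A', Cg (orderOf z : R) p p' → f.q p = f.q p' := by
    rintro p p' ⟨e, he⟩
    have := congrArg f.q he
    rw [map_sub, q_smul, hκn, zero_smul] at this
    exact sub_eq_zero.mp this
  have hcgR : ∀ p p' : R, Cg (orderOf z : R) p p' → c.κ p = c.κ p' := by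
    rintro p p' ⟨e, he⟩
    have := congrArg c.κ he
    rw [map_sub, smul_eq_mul, map_mul, hκn, zero_mul] at this
    exact sub_eq_zero.mp this
  have hval : ∀ p p' : ZMod (orderOf z), ((p + p').val : F) = p.val + p'.val := by
    intro p p'
    have : NeZero (orderOf z) := ⟨by omega⟩
    rw [ZMod.val_add]
    have h := Nat.mod_add_div (p.val + p'.val) (orderOf z)
    have h2 := congrArg (Nat.cast : ℕ → F) h
    rw [Nat.cast_add, Nat.cast_mul, hnF, zero_mul, add_zero, Nat.cast_add] at h2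
    exact h2
  set N : A →ₗ[F] A := Nh (fun ω => ((H₀ ω).val : F)) b cc with hN
  have hvq : ∀ a, f.q (v a) = Gz α z x y N (f.q a) := by
    intro a
    rw [hcg _ _ (hvG a), hRDG R F V A A' K Ω c α lam x y b cc f α' lam' x' y' b' cc' z _ L a]
    simp only [map_natCast]
    rfl
  have hval0 : ∀ p : ZMod (orderOf z), ((-p).val : F) = - (p.val : F) := by
    intro p
    have h := hval p (-p)
    rw [add_neg_cancel, ZMod.val_zero, Nat.cast_zero] at h
    exact (neg_eq_of_add_eq_zero_right h.symm).symm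
  have hCn : Cn 0 α (fun v => ((χ₀ v).val : F)) N := by
    refine hCNH F V A Ω 0 α (fun v => ((χ₀ v).val : F)) (fun ω => ((H₀ ω).val : F)) b cc hPr.fr ?_ ?_
    · intro p p'
      rw [cg_zero, hχa, hval]
    · intro v ω
      rw [cg_zero, hχH, sub_eq_add_neg, hval, hval0, sub_eq_add_neg]
  have hχ1 : ((χ₀ z).val : F) = 1 := by
    rw [hχz]
    have : Fact (1 < orderOf z) := ⟨hn1⟩
    rw [ZMod.val_one, Nat.cast_one]
  -- d
  have hdq : f.q d = rt x y (α z⁻¹) := by
    have h0 : ∀ a : A, lam (f.q d * a) = lam (rt x y (α z⁻¹) * a) := by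
      intro a
      obtain ⟨a', rfl⟩ := f.surj a
      obtain ⟨ρ, hρ⟩ := hd a'
      have h1 := congrArg c.κ hρ
      rw [map_add c.κ, map_mul c.κ, hκn, zero_mul, L.ql, map_mul f.q] at h1
      have h2 := hcgR _ _ (hvl a')
      rw [map_neg c.κ, L.ql, L.ql, map_mul f.q] at h2
      rw [L.ql] at h1
      rw [h2] at h1
      have h3 : f.q (rt x' y' (α' z⁻¹)) = rt x y (α z⁻¹) := by
        rw [rt, rt, map_sum]
        refine Finset.sum_congr rfl fun k _ => ?_
        rw [map_mul f.q, map_mul f.q, L.qx, L.qy, L.qa]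
      rw [h3] at h1
      rw [add_neg_eq_zero] at h1
      rw [h1, hRF.sym]
    have h4 : f.q d - rt x y (α z⁻¹) = 0 := by
      refine nondeg hRF ?_
      intro a
      rw [sub_mul, map_sub, h0, sub_self]
    exact sub_eq_zero.mp h4
  have hrt : f.q (rt x' y' (α' w)) = rt x y (α w) := by
    rw [rt, rt, map_sum]
    refine Finset.sum_congr rfl fun k _ => ?_
    rw [map_mul f.q, map_mul f.q, L.qx, L.qy, L.qa]
  rw [map_add f.q, map_mul f.q, hdq, hvq, hrt]
  exact (hUNT ℓ F V E A K Ω φ α z lam x y b cc (fun v => ((χ₀ v).val : F)) N u hV hRF hPr hu hCn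
    hχ1 hblk w).2

end Pool.Agent.PSS.S2.H75
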