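import Pool.Agent.PSS.StmtsS2c
import Pool.Agent.PFD.Witt

noncomputable section

namespace Pool.Agent.PSS.S2.H75

open scoped BigOperators PowerSeries
open Pool.Agent.PFC (tw IsTv)
open Pool.Agent.PFD.D2 (Cdv FibG wittCdv)
open Pool.Agent.PFD.D2b (FrR)
open Dm (cst)

theorem dtp (hLFT : LftStmt) (hDRT : DrtStmt) (hGEN : GenStmt) (hPER : PerStmt) (hSPF : SpfStmt)
    (hFRE : FreStmt) (hRTC : RtcStmt) (hUNX : S3.UnxStmt) : DtpStmt := by
  intro ℓ _ F V E A _ _ _ _ _ _ _ _ φ α W _ ψ z hV hz hz1 hrs hCl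
  haveI := hCl.fin
  obtain ⟨lam0, K0, _, x0, y0, hRF0, u, hu⟩ := hCl.rt
  obtain ⟨Ω, _, _, b, cc, hfr, hst⟩ := hCl.per
  have hu1 : u * rt x0 y0 1 = 1 := by
    rw [rt]
    simpa using hu
  have hPr : PrD F φ α b cc := ⟨hfr, hst⟩
  have hblk : ∀ e : A, (∀ a', e * a' = a' * e) → e * e = e → e ∈ BKR (cw F α) ⊤ → e = 0 := by
    intro e he hee heB
    have hbot : BKR (cw F α) (⊥ : Subgroup V) = ⊥ := by
      rw [BKR, Submodule.span_eq_bot]
      rintro n ⟨P', S, m, hlt, -⟩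
      exact absurd hlt not_lt_bot
    have h := hCl.blk ⊥ e ?_ ?_ ?_ heB
    · rw [hbot, Submodule.mem_bot] at h
      exact h
    · intro v _
      show α v * (e * α v⁻¹) = e
      rw [← mul_assoc, ← he, mul_assoc, ← map_mul, mul_inv_cancel, map_one, mul_one]
    · rw [hee, sub_self]
      exact Submodule.zero_mem _
    · intro a _
      rw [he, sub_self]
      exact Submodule.zero_mem _
  let R := WittVector ℓ F
  let c : Cdv R F := wittCdv ℓ F
  haveI : CharZero R := Pool.Agent.PFD.D2.witt_charZero ℓ F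
  obtain ⟨A', _, _, _, _, f, α', lam', x', y', b', cc', u', L, hu'⟩ :=
    hLFT R F V A K0 Ω c α lam0 x0 y0 b cc u hCl.fin hRF0 hfr hu1
  obtain ⟨v, hvW, hvd, hvn⟩ := hDRT ℓ R F V E A A' K0 Ω c φ W z α lam0 x0 y0 b cc f α' lam' x' y'
    b' cc' u hV hz hz1 hRF0 hPr hu1 hblk L
  -- the element d
  let d : A' := - ∑ k, ∑ g, lam' (v (x' k * α' g)) • (α' g⁻¹ * y' k)
  have hd : ∀ a, lam' (d * a) + lam' (v a) = 0 := by
    intro a
    have h1 : lam' (d * a) = - ∑ k, ∑ g, lam' (v (x' k * α' g)) * lam' (α' g⁻¹ * y' k * a) := by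
      rw [neg_mul, map_neg, Finset.sum_mul, map_sum]
      congr 1
      refine Finset.sum_congr rfl fun k _ => ?_
      rw [Finset.sum_mul, map_sum]
      refine Finset.sum_congr rfl fun g _ => ?_
      rw [smul_mul_assoc, map_smul, smul_eq_mul]
    have h2 : lam' (v a) = ∑ k, ∑ g, lam' (v (x' k * α' g)) * lam' (α' g⁻¹ * y' k * a) := by
      conv_lhs => rw [← L.rf.e1 a]
      rw [map_sum, map_sum]
      refine Finset.sum_congr rfl fun k _ => ?_
      rw [map_sum, map_sum]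
      refine Finset.sum_congr rfl fun g _ => ?_
      rw [map_smul, map_smul, smul_eq_mul, mul_comm]
    rw [h1, h2, neg_add_cancel]
  have hnil := hvn d (fun a => ⟨0, by rw [hd, mul_zero]⟩)
  -- n = 0 modulo π
  have hℓn : ℓ ∣ orderOf z := by
    obtain ⟨k, hk⟩ := hV z
    obtain ⟨j, -, hj⟩ := (Nat.dvd_prime_pow Fact.out).mp (orderOf_dvd_of_pow_eq_one hk)
    rcases j with _ | j
    · rw [pow_zero] at hj
      exact absurd (orderOf_eq_one_iff.mp hj) hz1
    · rw [hj, pow_succ]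
      exact dvd_mul_left _ _
  have hnF : (orderOf z : F) = 0 := (CharP.cast_eq_zero_iff F ℓ _).mpr hℓn
  have hκn : c.κ (orderOf z : R) = 0 := by rw [map_natCast, hnF]
  have hStE : StE φ Ω := by
    intro ω p q hpq
    obtain ⟨e, S, hS⟩ := hst ω
    have hmem : ((p, q) : V × V) ∈ MulAction.stabilizer (V × V) ω := hpq
    rw [hS, tw, Subgroup.mem_map] at hmem
    obtain ⟨s, -, hs⟩ := hmem
    refine ⟨e, ?_⟩
    have h1 : φ e s = p := congrArg Prod.fst hs
    have h2 : s = q := congrArg Prod.snd hs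
    rw [← h1, h2]
  obtain ⟨D₀, Λ₀, κ', _, X', Y', hRF, hlr, hrt⟩ := hGEN R F V E A' A K0 Ω φ W z α' lam' x' y' b' cc'
    u' c f α lam0 v d L.rf L.fr hStE hz hu' L.qa L.ql ((c.ker _).mp hκn) hvW
    (by
      intro a a'
      obtain ⟨e, he⟩ := hvd a a'
      refine ⟨e, ?_⟩
      rw [← he]
      abel)
    (by
      intro a
      have h := hd a
      rw [L.rf.sym a d, add_comm, h, map_zero])
  obtain ⟨π₀, hπof, hπsc, hπs, hπw, hπk⟩ := hSPF F W A (aw α W) D₀
  obtain ⟨hfin, hfree⟩ := hFRE F W A (aw α W) D₀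
  have hπsq : ∀ a : D₀.R, π₀ a = D₀.sq a 0 := by
    intro a
    conv_lhs => rw [← D₀.of_sq a]
    rw [hπof]
  have hPer : Per F⟦X⟧ ψ D₀.w := hPER F V E A φ W ψ α D₀ hrs hCl.per
  have hunx := hUNX F W E A D₀.R ψ D₀.w π₀ hPer hπs hπk
  obtain ⟨r, hr1, hr2⟩ := hrt 1
  have hcv1 : ∀ v, α v * (1 : A) = 1 * α v := fun v => by rw [mul_one, one_mul]
  have hζ : ∀ a, a * rt x0 y0 1 = rt x0 y0 1 * a :=
    ((hRTC F V A K0 K0 α lam0 x0 y0 hRF0).1 1 hcv1)
  have hζu : rt x0 y0 1 * u = 1 := by rw [← hζ, hu1]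
  have hζU : IsUnit (rt x0 y0 (1 : A)) := ⟨⟨rt x0 y0 1, u, hζu, hu1⟩, rfl⟩
  have hrunit : IsUnit (D₀.sq r 0) := by
    rw [hr2]
    have h1 := hnil 1
    set ν := f.q (d * rt x' y' (α' 1) + v (rt x' y' (α' 1))) - rt x0 y0 1 * rt x0 y0 1 with hν
    have h2 : f.q (v (rt x' y' (α' ((1 : W) : V))) + d * rt x' y' (α' ((1 : W) : V))) =
        rt x0 y0 1 * rt x0 y0 1 + ν := by
      rw [hν]
      have : (((1 : W) : V)) = 1 := rfl
      rw [this, add_comm (v _)]
      abel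
    rw [h2]
    refine IsUnit.neg ?_
    refine IsNilpotent.isUnit_add_left_of_commute h1 (hζU.mul hζU) ?_
    show ν * (rt x0 y0 1 * rt x0 y0 1) = rt x0 y0 1 * rt x0 y0 1 * ν
    rw [← mul_assoc, hζ, mul_assoc, hζ, ← mul_assoc]
  obtain ⟨ru, hru⟩ := hrunit
  obtain ⟨r', hrr', hr'r⟩ := hunx r (ru⁻¹ : Aˣ) (by rw [hπsq, ← hru]; simp)
    (by rw [hπsq, ← hru]; simp)
  refine ⟨D₀.R, κ', K0, inferInstance, inferInstance, hfin, hfree, inferInstance, inferInstance,
    D₀.w, π₀, Λ₀, lam0, X', Y', x0, y0, ?_⟩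
  refine ⟨hCl, hrs, hPer, ?_, hπsc, hπs, hπk, hπw, hRF, hRF0, ?_, ?_⟩
  · intro e
    obtain ⟨y, y', hyy, hy'y, hyα⟩ := hCl.uni e
    obtain ⟨Y, hY1, hY2⟩ := hunx (D₀.of (cst y)) y' (by rw [hπof]; simpa [cst] using hyy)
      (by rw [hπof]; simpa [cst] using hy'y)
    refine ⟨D₀.of (cst y), Y, hY1, hY2, ?_⟩
    intro w
    rw [Dm.w_mul_of]
    have e1 : D₀.of (cst y) * D₀.w w = D₀.of (cst (y * α w)) := by
      have e2 : D₀.w w = D₀.of (cst (α w)) := rfl
      rw [e2, ← D₀.of_mul]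
      congr 1
      funext n
      rw [Dm.mul]
      rcases n with _ | n
      · have ha : Finset.HasAntidiagonal.antidiagonal 0 = {((0 : ℕ), 0)} := rfl
        rw [ha, Finset.sum_singleton]
        simp only
        rw [ha, Finset.sum_singleton]
        simp only [cst, if_true]
        exact D₀.m0 _ _
      · rw [cst, if_neg (Nat.succ_ne_zero n)]
        refine Finset.sum_eq_zero fun p hp => Finset.sum_eq_zero fun q hq => ?_
        simp only [cst]
        split_ifs with h1 h2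
        · rw [Finset.HasAntidiagonal.mem_antidiagonal] at hp hq
          have : p.1 = n + 1 := by omega
          rw [this]
          exact D₀.m_om_right n w y
        · rw [map_zero]
        · rw [map_zero, LinearMap.zero_apply]
        · rw [map_zero]
    rw [e1]
    congr 1
    funext n
    simp only [cst]
    split_ifs
    · have h1 := hyα w
      show y * α w = α (ψ e w : V) * y
      rw [h1, hrs e w]
    · rw [mul_zero]
  · intro a
    conv_lhs => rw [← D₀.of_sq a]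
    rw [hlr, hπsq]
  · refine ⟨r, r', hrr', hr'r, ?_⟩
    rw [← hr1, rt, map_one]
    simp

end Pool.Agent.PSS.S2.H75
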