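import Pool.Agent.PSS.StmtsS1c

noncomputable section

namespace Pool.Agent.PSS.H75

theorem lim : LimStmt := by
  intro X Q hQ hs N₀ f₀ h₀
  let F : (k : ℕ) → {f : ℕ → X // Q (N₀ + k) f} := fun k =>
    Nat.rec (motive := fun k => {f : ℕ → X // Q (N₀ + k) f}) ⟨f₀, h₀⟩
      (fun k f => ⟨Classical.choose (hs (N₀ + k) f.1 f.2),
        (Classical.choose_spec (hs (N₀ + k) f.1 f.2)).2⟩) k
  have hF : ∀ k, ∀ n ≤ N₀ + k, (F (k + 1)).1 n = (F k).1 n := fun k =>
    (Classical.choose_spec (hs (N₀ + k) (F k).1 (F k).2)).1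
  have hF' : ∀ k j, ∀ n ≤ N₀ + k, (F (k + j)).1 n = (F k).1 n := by
    intro k j
    induction j with
    | zero => intro n _; rfl
    | succ j ih =>
      intro n hn
      rw [← ih n hn]
      exact hF (k + j) n (by omega)
  have key : ∀ k, ∀ n ≤ N₀ + k, (F (n - N₀)).1 n = (F k).1 n := by
    intro k n hn
    have h := hF' (n - N₀) (k - (n - N₀)) n (by omega)
    have e : n - N₀ + (k - (n - N₀)) = k := by omega
    rw [e] at h
    exact h.symm
  refine ⟨fun n => (F (n - N₀)).1 n, ?_, ?_⟩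
  · intro n hn
    exact key 0 n (by omega)
  · intro N hN
    obtain ⟨k, rfl⟩ := Nat.exists_eq_add_of_le hN
    refine hQ (N₀ + k) (F k).1 _ ?_ (F k).2
    intro n hn
    exact (key k n hn).symm

end Pool.Agent.PSS.H75
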