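import Pool.Agent.PSS.StmtsS1c

noncomputable section

namespace Pool.Agent.PSS.H75

open Finset

theorem tgn (hTRX : TrxStmt) (hTRA : TraStmt) (hTRC : TrcStmt) (hSTN : StnStmt)
    (hLIM : LimStmt) : TgnStmt := by
  intro R K V E A B κ Ω _ _ _ _ _ _ _ _ _ _ _ _ _ _ _ φ W z α lam x y b c C u hz hst hu g hg hg1
    hgd
  set β := ia C.i α with hβ
  let Q : ℕ → (ℕ → (B →ₗ[K] B) × (B →ₗ[K] B →ₗ[K] B)) → Prop := fun N f =>
    (f 0).1 = LinearMap.id ∧ (∀ n ≤ N, WBl β W (f n).1) ∧ (∀ n, n + 1 ≤ N → (f (n + 1)).1 1 = 0) ∧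
    (∀ n ≤ N, ∀ x y, ∑ p ∈ antidiagonal n, (f p.1).1 x * (f p.2).1 y =
      ∑ p ∈ antidiagonal n, (f p.1).1 ((f p.2).2 x y)) ∧
    (∀ n ≤ N, ∀ a₁ a₂, In C.i ((f n).2 (C.i a₁) (C.i a₂)))
  have hQ1 : ∀ N f f', (∀ n ≤ N, f n = f' n) → Q N f → Q N f' := by
    intro N f f' h hf
    obtain ⟨q0, q1, q2, q3, q4⟩ := hf
    refine ⟨?_, ?_, ?_, ?_, ?_⟩
    · rw [← h 0 (Nat.zero_le _)]; exact q0
    · intro n hn; rw [← h n hn]; exact q1 n hn
    · intro n hn; rw [← h _ hn]; exact q2 n hn
    · intro n hn x y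
      have e := q3 n hn x y
      have e1 : ∑ p ∈ antidiagonal n, (f p.1).1 x * (f p.2).1 y =
          ∑ p ∈ antidiagonal n, (f' p.1).1 x * (f' p.2).1 y := by
        refine sum_congr rfl fun p hp => ?_
        rw [Finset.HasAntidiagonal.mem_antidiagonal] at hp
        rw [h p.1 (by omega), h p.2 (by omega)]
      have e2 : ∑ p ∈ antidiagonal n, (f p.1).1 ((f p.2).2 x y) =
          ∑ p ∈ antidiagonal n, (f' p.1).1 ((f' p.2).2 x y) := by
        refine sum_congr rfl fun p hp => ?_
        rw [Finset.HasAntidiagonal.mem_antidiagonal] at hp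
        rw [h p.1 (by omega), h p.2 (by omega)]
      rw [← e1, ← e2]; exact e
    · intro n hn; rw [← h n hn]; exact q4 n hn
  have hQ2 : ∀ N f, Q N f → ∃ f', (∀ n ≤ N, f' n = f n) ∧ Q (N + 1) f' := by
    intro N f hf
    obtain ⟨q0, q1, q2, q3, q4⟩ := hf
    let P₁ : ℕ → (B →ₗ[K] B) := fun n => if n ≤ N then (f n).1 else 0
    have hP : ∀ n ≤ N, P₁ n = (f n).1 := fun n hn => by simp only [P₁, if_pos hn]
    obtain ⟨m₁, hm₁⟩ := hTRX K V B β W P₁ (by rw [hP 0 (Nat.zero_le _)]; exact q0)
      (by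
        intro n
        by_cases hn : n ≤ N
        · rw [hP n hn]; exact q1 n hn
        · simp only [P₁, if_neg hn]
          intro w _ x
          simp)
      (by
        intro n
        by_cases hn : n + 1 ≤ N
        · rw [hP _ hn]; exact q2 n hn
        · simp only [P₁, if_neg hn]; rfl)
    have hm : ∀ n ≤ N, m₁ n = (f n).2 := by
      intro n
      induction n using Nat.strong_induction_on with
      | _ n ih =>
        intro hn
        apply LinearMap.ext
        intro x
        apply LinearMap.ext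
        intro y
        have e1 := hm₁.pm n x y
        have e2 := q3 n hn x y
        have e3 : ∑ p ∈ antidiagonal n, P₁ p.1 x * P₁ p.2 y =
            ∑ p ∈ antidiagonal n, (f p.1).1 x * (f p.2).1 y := by
          refine sum_congr rfl fun p hp => ?_
          rw [Finset.HasAntidiagonal.mem_antidiagonal] at hp
          rw [hP p.1 (by omega), hP p.2 (by omega)]
        have e4 : ∑ p ∈ antidiagonal n, P₁ p.1 (m₁ p.2 x y) =
            ∑ p ∈ antidiagonal n, (f p.1).1 (m₁ p.2 x y) := by
          refine sum_congr rfl fun p hp => ?_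
          rw [Finset.HasAntidiagonal.mem_antidiagonal] at hp
          rw [hP p.1 (by omega)]
        have e5 : ∑ p ∈ antidiagonal n, (f p.1).1 (m₁ p.2 x y - (f p.2).2 x y) = 0 := by
          simp only [map_sub, sum_sub_distrib]
          rw [← e4, ← e1, e3, e2, sub_self]
        rw [sum_eq_single (0, n)] at e5
        · rw [q0] at e5
          exact sub_eq_zero.mp e5
        · rintro ⟨i, j⟩ hp hne
          rw [Finset.HasAntidiagonal.mem_antidiagonal] at hp
          simp only at hp
          have hj : j < n := by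
            rcases Nat.lt_or_ge j n with h | h
            · exact h
            · exfalso
              apply hne
              have : j = n := by omega
              have : i = 0 := by omega
              simp [*]
          simp only
          rw [ih j hj (by omega), sub_self, map_zero]
        · intro h
          exact absurd (by rw [Finset.HasAntidiagonal.mem_antidiagonal]; simp) h
    obtain ⟨P', m', hT, hPP, hI⟩ := hSTN R K V E A B κ Ω φ W z α lam x y b c C u hz hst hu P₁ m₁ N
      hm₁ (by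
        intro n hn a₁ a₂
        rw [hm n hn]
        exact q4 n hn a₁ a₂)
    have hmm := (hTRC K V B β W P₁ P' m₁ m' N hm₁ hT hPP).1
    refine ⟨fun n => (P' n, m' n), ?_, ?_⟩
    · intro n hn
      show (P' n, m' n) = f n
      rw [hPP n hn, hmm n hn, hP n hn, hm n hn]
    · exact ⟨hT.p0, fun n _ => hT.pw n, fun n _ => hT.p1 n, fun n _ => hT.pm n, hI⟩
  -- start
  let P₀ : ℕ → (B →ₗ[K] B) := fun n => if n = 0 then LinearMap.id else if n = 1 then g else 0
  obtain ⟨m₀, hm₀⟩ := hTRX K V B β W P₀ rfl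
    (by
      intro n
      rcases n with _ | _ | n
      · intro w _ x; simp [P₀]
      · exact hg
      · intro w _ x; simp [P₀])
    (by
      intro n
      rcases n with _ | n
      · exact hg1
      · simp [P₀])
  obtain ⟨⟨D, hD⟩, -, -⟩ := hTRA K V B β W P₀ m₀ hm₀
  have hm0 : ∀ x y, m₀ 0 x y = x * y := by
    intro x y
    rw [← hD]
    exact D.m0 x y
  have hm1 : ∀ x y, m₀ 1 x y = d1 g x y := by
    intro x y
    have h := hm₀.pm 1 x y
    have ha : antidiagonal 1 = {((0 : ℕ), 1), (1, 0)} := rfl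
    rw [ha, sum_pair (by decide), sum_pair (by decide)] at h
    simp only [P₀, if_true, one_ne_zero, if_false, LinearMap.id_coe, id_eq] at h
    rw [hm0] at h
    rw [d1]
    rw [sub_add_eq_add_sub, h]
    abel
  have hstart : Q 1 (fun n => (P₀ n, m₀ n)) := by
    refine ⟨hm₀.p0, fun n _ => hm₀.pw n, fun n _ => hm₀.p1 n, fun n _ => hm₀.pm n, ?_⟩
    intro n hn a₁ a₂
    rcases n with _ | n
    · refine ⟨a₁ * a₂, ?_⟩
      show C.i (a₁ * a₂) = m₀ 0 (C.i a₁) (C.i a₂)
      rw [hm0, map_mul]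
    · obtain rfl : n = 0 := by omega
      show In C.i (m₀ 1 (C.i a₁) (C.i a₂))
      rw [hm1]
      exact hgd a₁ a₂
  obtain ⟨f, hf0, hfQ⟩ := hLIM _ Q hQ1 hQ2 1 (fun n => (P₀ n, m₀ n)) hstart
  have hQm : ∀ n, Q (n + 1) f := fun n => hfQ (n + 1) (by omega)
  refine ⟨fun n => (f n).1, fun n => (f n).2, ?_, ?_, ?_⟩
  · refine ⟨(hQm 0).1, fun n => (hQm n).2.1 n (by omega), fun n => (hQm n).2.2.1 n (by omega),
      fun n => (hQm n).2.2.2.1 n (by omega)⟩
  · show (f 1).1 = g
    rw [hf0 1 le_rfl]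
    rfl
  · intro n
    exact (hQm n).2.2.2.2 n (by omega)

end Pool.Agent.PSS.H75
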